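import Mathlib
import Pool.Agent.Run7.h943.FlowMain

set_option autoImplicit false

/-!
Hereditarily normal spaces (in particular manifolds) with flows: collectionwise normality with
respect to closed Lindelöf sets, and full collectionwise normality under the countable chain
condition.
-/

open Set Topology

/-- Let `X` be a hereditarily normal, locally compact, locally connected space (for instance a
hereditarily normal manifold), and let countably many open sets `W m` each carry a continuous flow
without fixed points, the complement of their union having countable extent. Then every discrete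
family of closed sets which are Lindelöf expands to a discrete family of open sets; if `X` has the
countable chain condition, every discrete family of closed sets does. -/
theorem Pool.Agent.Results.MP_b5a8a2_gt.FlowsLindelof.result
    (X : Type*) [TopologicalSpace X] [T5Space X] [LocallyCompactSpace X] [LocallyConnectedSpace X]
    (W : ℕ → Set X) (hW : ∀ m, IsOpen (W m)) (φ : ∀ m, Flow ℝ (W m))
    (hφ : ∀ m, ∀ x : W m, ∃ t : ℝ, φ m t x ≠ x)
    (hC : ∀ D ⊆ (⋃ m, W m)ᶜ, (∀ x : X, ∃ V ∈ 𝓝 x, (V ∩ D).Subsingleton) → D.Countable)
    (ι : Type*) (F : ι → Set X) (hc : ∀ i, IsClosed (F i))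
    (hL : (∀ i, IsLindelof (F i)) ∨
      ∀ A : Set (Set X), (∀ O ∈ A, IsOpen O ∧ O.Nonempty) → A.PairwiseDisjoint id → A.Countable)
    (hF : ∀ x : X, ∃ V ∈ 𝓝 x, ∀ i j, (V ∩ F i).Nonempty → (V ∩ F j).Nonempty → i = j) :
    ∃ U : ι → Set X, (∀ i, IsOpen (U i)) ∧ (∀ i, F i ⊆ U i) ∧
      ∀ x : X, ∃ V ∈ 𝓝 x, ∀ i j, (V ∩ U i).Nonempty → (V ∩ U j).Nonempty → i = j := by
  rcases hL with hL | hccc
  · exact (Run7.h943.sepd_of_flows hW φ hφ hC hF hc hL).discrete hF hc
  · exact (Run7.h943.sepd_of_flows_ccc hW φ hφ hC hccc hF hc).discrete hF hc
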