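import Mathlib
import Pool.Agent.Run7.h943.HomeoMain

set_option autoImplicit false

/-!
Normal locally compact locally connected spaces (in particular normal manifolds): families covered
by countably many closed `G_δ` sets with compact components.
-/

open Set Topology

/-- Let `X` be a normal, locally compact, locally connected `T1` space (for instance a normal
manifold). If the union of a discrete family of closed sets is covered by countably many closed
`G_δ` sets `Z m`, the component of `Z m` at each point of `Z m` lying in the union being compact,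
then the family expands to a discrete family of open sets. -/
theorem Pool.Agent.Results.MP_b5a8a2_gt.GdeltaComponents.result
    (X : Type*) [TopologicalSpace X] [T1Space X] [NormalSpace X] [LocallyCompactSpace X]
    [LocallyConnectedSpace X]
    (ι : Type*) (F : ι → Set X) (hc : ∀ i, IsClosed (F i))
    (hF : ∀ x : X, ∃ V ∈ 𝓝 x, ∀ i j, (V ∩ F i).Nonempty → (V ∩ F j).Nonempty → i = j)
    (Z : ℕ → Set X) (hZ : ∀ m, IsClosed (Z m)) (hG : ∀ m, IsGδ (Z m))
    (hFZ : ∀ i, F i ⊆ ⋃ m, Z m)
    (hcomp : ∀ m, ∀ x ∈ Z m, x ∈ ⋃ i, F i → IsCompact (connectedComponentIn (Z m) x)) :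
    ∃ U : ι → Set X, (∀ i, IsOpen (U i)) ∧ (∀ i, F i ⊆ U i) ∧
      ∀ x : X, ∃ V ∈ 𝓝 x, ∀ i j, (V ∩ U i).Nonempty → (V ∩ U j).Nonempty → i = j :=
  (Run7.h943.sepd_of_gδ_cover hF hc hZ hG hFZ hcomp).discrete hF hc
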