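import Mathlib
import Pool.Agent.Run7.h943.HomeoMain

set_option autoImplicit false

/-!
Hereditarily normal spaces (in particular manifolds) with sequences of homeomorphisms of open
subspaces tending to the identity.
-/

open Set Topology Filter

/-- Let `X` be a hereditarily normal, locally compact, locally connected space (for instance a
hereditarily normal manifold), and let countably many open sets `W m` each carry a sequence of
self-homeomorphisms `f m n` such that `f m n → id` and `(f m n)⁻¹ → id` continuously. Then every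
discrete family of closed sets, each a countable union of compact sets which lie in some `W m` and
are moved off themselves by `f m n` for all large `n`, expands to a discrete family of open
sets. -/
theorem Pool.Agent.Results.MP_b5a8a2_gt.SmallHomeos.result
    (X : Type*) [TopologicalSpace X] [T5Space X] [LocallyCompactSpace X] [LocallyConnectedSpace X]
    (W : ℕ → Set X) (hW : ∀ m, IsOpen (W m)) (f : ∀ m, ℕ → W m ≃ₜ W m)
    (hf : ∀ m, ∀ x : W m, Tendsto (fun p : ℕ × W m => f m p.1 p.2) (atTop ×ˢ 𝓝 x) (𝓝 x))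
    (hf' : ∀ m, ∀ x : W m,
      Tendsto (fun p : ℕ × W m => (f m p.1).symm p.2) (atTop ×ˢ 𝓝 x) (𝓝 x))
    (ι : Type*) (F : ι → Set X) (hc : ∀ i, IsClosed (F i))
    (hK : ∀ i, ∃ K : ℕ → Set X, F i = ⋃ l, K l ∧ ∀ l, IsCompact (K l) ∧ ∃ m, K l ⊆ W m ∧
      ∀ᶠ n in atTop, Disjoint (f m n '' (Subtype.val ⁻¹' K l)) (Subtype.val ⁻¹' K l))
    (hF : ∀ x : X, ∃ V ∈ 𝓝 x, ∀ i j, (V ∩ F i).Nonempty → (V ∩ F j).Nonempty → i = j) :
    ∃ U : ι → Set X, (∀ i, IsOpen (U i)) ∧ (∀ i, F i ⊆ U i) ∧
      ∀ x : X, ∃ V ∈ 𝓝 x, ∀ i j, (V ∩ U i).Nonempty → (V ∩ U j).Nonempty → i = j :=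
  (Run7.h943.sepd_of_homeos hW f hf hf' hF hc hK).discrete hF hc
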